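import Pool.Agent.Helper85.MU.Stmts

/-!
The determinant on the stable subspaces of a regular unipotent matrix.
-/

set_option autoImplicit false

open Polynomial

namespace MU

theorem lin_aeval {K : Type} [Field K] {n : ℕ} (N : Matrix (Fin n) (Fin n) K) (hN : N ^ n = 0)
    (q : K[X]) : aeval N q = ∑ i : Fin n, q.coeff i • N ^ (i : ℕ) := by
  rw [Polynomial.aeval_eq_sum_range' (n := n + (q.natDegree + 1)) (by omega) N,
    Finset.sum_range_add, ← Fin.sum_univ_eq_sum_range (fun i => q.coeff i • N ^ i) n]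
  have h : ∑ x ∈ Finset.range (q.natDegree + 1), q.coeff (n + x) • N ^ (n + x) = 0 := by
    apply Finset.sum_eq_zero
    intro x _
    rw [pow_add, hN, zero_mul, smul_zero]
  rw [h, add_zero]

/-- the polynomial with given coefficients -/
noncomputable def linPoly {K : Type} [Field K] {n : ℕ} (c : Fin n → K) : K[X] :=
  ∑ i : Fin n, C (c i) * X ^ (i : ℕ)

theorem linPoly_coeff {K : Type} [Field K] {n : ℕ} (c : Fin n → K) (i : Fin n) :
    (linPoly c).coeff i = c i := by
  unfold linPoly
  rw [Polynomial.finsetSum_coeff]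
  simp only [Polynomial.coeff_C_mul, Polynomial.coeff_X_pow]
  rw [Finset.sum_eq_single i]
  · simp
  · intro b _ hb
    have : (i : ℕ) ≠ (b : ℕ) := fun h => hb (Fin.ext h.symm)
    simp [this]
  · intro h
    exact absurd (Finset.mem_univ i) h

/-- a nilpotent matrix of size `m` has `M ^ m = 0` -/
theorem lin_nil {K : Type} [Field K] {m k : ℕ} (M : Matrix (Fin m) (Fin m) K) (h : M ^ k = 0) :
    M ^ m = 0 := by
  have h1 : IsNilpotent M := ⟨k, h⟩
  have h2 : M.charpoly = X ^ m := by
    have h3 := Matrix.isNilpotent_charpoly_sub_pow_of_isNilpotent h1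
    have h4 : M.charpoly - X ^ (Fintype.card (Fin m)) = 0 := h3.eq_zero
    rw [Fintype.card_fin] at h4
    exact sub_eq_zero.mp h4
  have h5 := Matrix.aeval_self_charpoly M
  rwa [h2, map_pow, aeval_X] at h5

theorem lin_main {K : Type} [Field K] {n m Q : ℕ} (N X' : Matrix (Fin n) (Fin n) K)
    (B : Matrix (Fin n) (Fin m) K) (C' : Matrix (Fin m) (Fin n) K)
    (M a : Matrix (Fin m) (Fin m) K) (hX : X' * (1 + N) = (1 + N) ^ Q * X') (hN : N ^ n = 0)
    (hN1 : N ^ (n - 1) ≠ 0) (hCB : C' * B = 1) (hNB : N * B = B * M) (hXB : X' * B = B * a)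
    (hmn : m ≤ n) :
    ∃ c : K, X'.det = ∏ j : Fin n, (c * (Q : K) ^ (j : ℕ)) ∧
      a.det = ∏ j : Fin m, (c * (Q : K) ^ (n - m + (j : ℕ))) := by
  classical
  -- a cyclic vector
  obtain ⟨i0, j0, hij⟩ : ∃ i0 j0, (N ^ (n - 1)) i0 j0 ≠ 0 := by
    by_contra hcon
    push Not at hcon
    exact hN1 (Matrix.ext hcon)
  set P : Matrix (Fin n) (Fin n) K := Matrix.of fun k j => (N ^ (j : ℕ)) k j0 with hP
  set R : Matrix (Fin n) (Fin n) K := Matrix.of fun i k => (N ^ (n - 1 - (i : ℕ))) i0 k with hR
  have hRP : ∀ i j, (R * P) i j = (N ^ (n - 1 - (i : ℕ) + (j : ℕ))) i0 j0 := by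
    intro i j
    rw [pow_add, Matrix.mul_apply, Matrix.mul_apply]
    rfl
  have hlow : (R * P).BlockTriangular OrderDual.toDual := by
    intro i j hij'
    have hlt : (i : ℕ) < (j : ℕ) := hij'
    rw [hRP]
    have h1 : n - 1 - (i : ℕ) + (j : ℕ) = n + (j - i - 1) := by
      have := i.2
      omega
    rw [h1, pow_add, hN, zero_mul, Matrix.zero_apply]
  have hdet : (R * P).det ≠ 0 := by
    rw [Matrix.det_of_lowerTriangular _ hlow]
    apply Finset.prod_ne_zero_iff.mpr
    intro i _
    rw [hRP]
    have h1 : n - 1 - (i : ℕ) + (i : ℕ) = n - 1 := by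
      have := i.2
      omega
    rwa [h1]
  have hPdet : P.det ≠ 0 := by
    intro h
    apply hdet
    rw [Matrix.det_mul, h, mul_zero]
  have hPu : IsUnit P.det := isUnit_iff_ne_zero.mpr hPdet
  -- evaluation of polynomials
  have hev : ∀ (q : K[X]) (k : Fin n),
      (aeval N q) k j0 = P.mulVec (fun i : Fin n => q.coeff i) k := by
    intro q k
    rw [lin_aeval N hN q, Matrix.sum_apply]
    change _ = ∑ i, P k i * q.coeff i
    apply Finset.sum_congr rfl
    intro i _
    rw [Matrix.smul_apply, smul_eq_mul, mul_comm]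
    rfl
  set β : Fin n → K := P⁻¹.mulVec (fun k => X' k j0) with hβ
  have hPβ : P.mulVec β = fun k => X' k j0 := by
    rw [hβ, Matrix.mulVec_mulVec, Matrix.mul_nonsing_inv _ hPu, Matrix.one_mulVec]
  set p : K[X] := linPoly β with hp
  have hpX : ∀ k, (aeval N p) k j0 = X' k j0 := by
    intro k
    rw [hev]
    have h1 : (fun i : Fin n => p.coeff i) = β := by
      funext i
      exact linPoly_coeff β i
    rw [h1, hPβ]
  set u : K[X] := divX ((1 + X) ^ Q) with hu
  have hu1 : u * X + 1 = (1 + X : K[X]) ^ Q := by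
    have h1 := Polynomial.divX_mul_X_add ((1 + X : K[X]) ^ Q)
    rw [Polynomial.coeff_one_add_X_pow, Nat.choose_zero_right, Nat.cast_one, C_1] at h1
    exact h1
  have hu0 : u.coeff 0 = (Q : K) := by
    rw [hu, Polynomial.coeff_divX, Polynomial.coeff_one_add_X_pow]
    simp
  have hcomm : X' * N = (aeval N (u * X)) * X' := by
    have h1 : aeval N ((1 + X : K[X]) ^ Q) = (1 + N) ^ Q := by
      simp
    have h2 : (1 + N) ^ Q = aeval N (u * X) + 1 := by
      rw [← h1, ← hu1, map_add, map_one]
    rw [h2, mul_add, mul_one, add_mul, one_mul, add_comm] at hX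
    exact add_right_cancel hX
  have hpow : ∀ j : ℕ, X' * N ^ j = (aeval N ((u * X) ^ j)) * X' := by
    intro j
    have h1 : SemiconjBy X' N (aeval N (u * X)) := hcomm
    have h2 := h1.pow_right j
    rw [map_pow]
    exact h2
  set T : Matrix (Fin n) (Fin n) K :=
    Matrix.of fun i j => ((u * X) ^ (j : ℕ) * p).coeff (i : ℕ) with hT
  have hXP : X' * P = P * T := by
    ext k j
    have h1 : (X' * P) k j = (X' * N ^ (j : ℕ)) k j0 := by
      rw [Matrix.mul_apply, Matrix.mul_apply]
      rfl
    rw [h1, hpow, Matrix.mul_apply]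
    have h2 : ∑ x, (aeval N ((u * X) ^ (j : ℕ))) k x * X' x j0 =
        (aeval N ((u * X) ^ (j : ℕ) * p)) k j0 := by
      rw [map_mul, Matrix.mul_apply]
      apply Finset.sum_congr rfl
      intro x _
      rw [hpX]
    rw [h2, hev]
    rfl
  have hTc : ∀ i j : Fin n, T i j = if (j : ℕ) ≤ i then (u ^ (j : ℕ) * p).coeff (i - j) else 0 := by
    intro i j
    change ((u * X) ^ (j : ℕ) * p).coeff (i : ℕ) = _
    have h1 : (u * X) ^ (j : ℕ) * p = X ^ (j : ℕ) * (u ^ (j : ℕ) * p) := by
      rw [mul_pow]; ring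
    rw [h1, Polynomial.coeff_X_pow_mul']
  have hTd : ∀ j : Fin n, T j j = p.coeff 0 * (Q : K) ^ (j : ℕ) := by
    intro j
    have hz : (u ^ (j : ℕ)).coeff 0 = (Q : K) ^ (j : ℕ) := by
      rw [← Polynomial.constantCoeff_apply, map_pow, Polynomial.constantCoeff_apply, hu0]
    rw [hTc, if_pos le_rfl, Nat.sub_self, Polynomial.mul_coeff_zero, hz, mul_comm]
  have hTlow : T.BlockTriangular OrderDual.toDual := by
    intro i j hij'
    have hlt : (i : ℕ) < (j : ℕ) := hij'
    rw [hTc, if_neg (by omega)]
  refine ⟨p.coeff 0, ?_, ?_⟩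
  · have h1 : X'.det * P.det = P.det * T.det := by
      rw [← Matrix.det_mul, ← Matrix.det_mul, hXP]
    have h2 : X'.det = T.det := by
      apply mul_right_cancel₀ hPdet
      rw [h1, mul_comm]
    rw [h2, Matrix.det_of_lowerTriangular _ hTlow]
    exact Finset.prod_congr rfl fun j _ => hTd j
  · -- the stable subspace
    set D : Matrix (Fin n) (Fin m) K := P⁻¹ * B with hD
    have hPD : P * D = B := by
      rw [hD, ← Matrix.mul_assoc, Matrix.mul_nonsing_inv _ hPu, Matrix.one_mul]
    have hNk : ∀ k : ℕ, N ^ k * B = B * M ^ k := by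
      intro k
      induction k with
      | zero => simp
      | succ k ih =>
        rw [pow_succ, Matrix.mul_assoc, hNB, ← Matrix.mul_assoc, ih, Matrix.mul_assoc, ← pow_succ]
    have hBinj : ∀ (Z : Matrix (Fin m) (Fin m) K), B * Z = 0 → Z = 0 := by
      intro Z hZ
      have h1 : C' * (B * Z) = 0 := by rw [hZ, Matrix.mul_zero]
      rwa [← Matrix.mul_assoc, hCB, Matrix.one_mul] at h1
    have hMm : M ^ m = 0 := by
      apply lin_nil M (k := n)
      apply hBinj
      rw [← hNk, hN, Matrix.zero_mul]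
    have hD0 : ∀ (i : Fin n) (l : Fin m), (i : ℕ) + m < n → D i l = 0 := by
      intro i l hi
      set q : K[X] := linPoly (fun j => D j l) with hq
      have hqc : (fun j : Fin n => q.coeff j) = fun j => D j l := by
        funext j
        exact linPoly_coeff (fun j => D j l) j
      have h1 : ∀ k, (aeval N q) k j0 = B k l := by
        intro k
        rw [hev, hqc, ← hPD, Matrix.mul_apply]
        rfl
      have h2 : P.mulVec (fun j : Fin n => (X ^ m * q).coeff j) = 0 := by
        funext k
        rw [← hev, map_mul, map_pow, aeval_X, Matrix.mul_apply]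
        have h3 : ∑ x, (N ^ m) k x * (aeval N q) x j0 = (N ^ m * B) k l := by
          rw [Matrix.mul_apply]
          exact Finset.sum_congr rfl fun x _ => by rw [h1]
        rw [h3, hNk, hMm, Matrix.mul_zero]
        rfl
      have h4 : (fun j : Fin n => (X ^ m * q).coeff j) = 0 := by
        have h5 := congrArg (P⁻¹.mulVec) h2
        rwa [Matrix.mulVec_mulVec, Matrix.nonsing_inv_mul _ hPu, Matrix.one_mulVec,
          Matrix.mulVec_zero] at h5
      have h6 := congrFun h4 (⟨i + m, hi⟩ : Fin n)
      change (X ^ m * q).coeff (i + m) = 0 at h6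
      rw [Polynomial.coeff_X_pow_mul] at h6
      rw [← linPoly_coeff (fun j => D j l) i]
      exact h6
    let em : Fin m → Fin n := fun j => ⟨n - m + j, by omega⟩
    have hem : Function.Injective em := by
      intro j j' h
      have h1 : n - m + (j : ℕ) = n - m + j' := congrArg Fin.val h
      exact Fin.ext (by omega)
    have hsum : ∀ (f : Fin n → K), (∀ i : Fin n, (i : ℕ) + m < n → f i = 0) →
        ∑ i, f i = ∑ j : Fin m, f (em j) := by
      intro f hf
      rw [← Finset.sum_image (s := Finset.univ) (g := em) (f := f) (fun x _ y _ h => hem h)]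
      symm
      apply Finset.sum_subset (Finset.subset_univ _)
      intro i _ hi
      apply hf
      by_contra hcon
      apply hi
      rw [Finset.mem_image]
      refine ⟨⟨i - (n - m), by have := i.2; omega⟩, Finset.mem_univ _, ?_⟩
      apply Fin.ext
      change n - m + ((i : ℕ) - (n - m)) = i
      omega
    have hTD : T * D = D * a := by
      have h1 : P * (T * D) = P * (D * a) := by
        rw [← Matrix.mul_assoc, ← hXP, Matrix.mul_assoc, hPD, hXB, ← Matrix.mul_assoc, hPD]
      have h2 := congrArg (fun Z => P⁻¹ * Z) h1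
      simp only [← Matrix.mul_assoc] at h2
      rwa [Matrix.nonsing_inv_mul _ hPu, Matrix.one_mul, Matrix.one_mul] at h2
    have hsub : T.submatrix em em * D.submatrix em id = D.submatrix em id * a := by
      ext i l
      have h1 := congrFun (congrFun hTD (em i)) l
      rw [Matrix.mul_apply, Matrix.mul_apply] at h1
      rw [Matrix.mul_apply, Matrix.mul_apply]
      rw [hsum (fun x => T (em i) x * D x l) (fun x hx => by rw [hD0 x l hx, mul_zero])] at h1
      exact h1
    have hCD : (C' * P).submatrix id em * D.submatrix em id = 1 := by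
      have h0 : (C' * P) * D = 1 := by rw [Matrix.mul_assoc, hPD, hCB]
      ext i l
      have h1 := congrFun (congrFun h0 i) l
      rw [Matrix.mul_apply,
        hsum (fun x => (C' * P) i x * D x l) (fun x hx => by rw [hD0 x l hx, mul_zero])] at h1
      rw [Matrix.mul_apply]
      exact h1
    have hDdet : (D.submatrix em id).det ≠ 0 := by
      intro h
      have h1 := congrArg Matrix.det hCD
      rw [Matrix.det_mul, h, mul_zero, Matrix.det_one] at h1
      exact zero_ne_one h1
    have h1 : a.det = (T.submatrix em em).det := by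
      have h2 := congrArg Matrix.det hsub
      rw [Matrix.det_mul, Matrix.det_mul, mul_comm] at h2
      exact (mul_left_cancel₀ hDdet h2).symm
    have hlow2 : (T.submatrix em em).BlockTriangular OrderDual.toDual := by
      intro i j hij'
      have hlt : (i : ℕ) < (j : ℕ) := hij'
      change T (em i) (em j) = 0
      rw [hTc, if_neg]
      change ¬ (n - m + (j : ℕ) ≤ n - m + (i : ℕ))
      omega
    rw [h1, Matrix.det_of_lowerTriangular _ hlow2]
    exact Finset.prod_congr rfl fun j _ => hTd (em j)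

theorem st_LIN : ST_LIN := by
  intro K _ n m Q _ t X' B C' s a hX hN hN1 hCB htB hXB
  have hmn : m ≤ n := by
    have h1 := Matrix.rank_mul_le_right C' B
    rw [hCB, Matrix.rank_one, Fintype.card_fin] at h1
    exact h1.trans ((Matrix.rank_le_card_height B).trans (by simp))
  have hX1 : X' * (1 + (t - 1)) = (1 + (t - 1)) ^ Q * X' := by
    rwa [add_sub_cancel]
  have hNB : (t - 1) * B = B * (s - 1) := by
    rw [Matrix.sub_mul, Matrix.mul_sub, htB, Matrix.one_mul, Matrix.mul_one]
  obtain ⟨c, h1, h2⟩ := lin_main (t - 1) X' B C' (s - 1) a hX1 hN hN1 hCB hNB hXB hmn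
  have hs : ∀ k : ℕ, (∑ j : Fin k, (j : ℕ)) * 2 = k * (k - 1) := by
    intro k
    rw [Fin.sum_univ_eq_sum_range (fun j => j) k]
    exact Finset.sum_range_id_mul_two k
  have e1 : X'.det = c ^ n * (Q : K) ^ (∑ j : Fin n, (j : ℕ)) := by
    rw [h1, Finset.prod_mul_distrib, Finset.prod_const, Finset.card_univ, Fintype.card_fin,
      Finset.prod_pow_eq_pow_sum]
  have e2 : a.det = c ^ m * (Q : K) ^ ((n - m) * m + ∑ j : Fin m, (j : ℕ)) := by
    rw [h2, Finset.prod_mul_distrib, Finset.prod_const, Finset.card_univ, Fintype.card_fin,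
      Finset.prod_pow_eq_pow_sum, Finset.sum_add_distrib, Finset.sum_const, Finset.card_univ,
      Fintype.card_fin, smul_eq_mul, mul_comm m (n - m)]
  rw [e1, e2, mul_pow, mul_pow, ← pow_mul, ← pow_mul, ← pow_mul, ← pow_mul, mul_assoc, ← pow_add]
  congr 2
  · ring
  · obtain ⟨d, rfl⟩ := Nat.exists_eq_add_of_le hmn
    have a1 := hs (m + d)
    have a2 := hs m
    have a3 : m + d - m = d := by omega
    rw [a3]
    rcases Nat.eq_zero_or_pos m with hm | hm
    · subst hm
      simp
    · obtain ⟨m', rfl⟩ := Nat.exists_eq_add_of_le' hm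
      have a4 : m' + 1 + d - 1 = m' + d := by omega
      rw [a4] at a1
      rw [Nat.add_sub_cancel] at a2
      set s1 := ∑ j : Fin (m' + 1 + d), (j : ℕ)
      set s2 := ∑ j : Fin (m' + 1), (j : ℕ)
      have b1 : (d * (m' + 1) + s2) * (2 * (m' + 1 + d)) =
          2 * d * (m' + 1) * (m' + 1 + d) + s2 * 2 * (m' + 1 + d) := by ring
      have b2 : s1 * (2 * (m' + 1)) = s1 * 2 * (m' + 1) := by ring
      rw [b1, b2, a1, a2]
      ring

end MU
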